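import Mathlib

/-!
# Walks in partial functions, and the family of points with levels
-/

set_option autoImplicit false

namespace Pool.Agent.Helper12.BX

/-- Partial functions from `ℕ` to `ℕ`. -/
abbrev PF := ℕ → Option ℕ

/-! ### Values -/

/-- The key of a value. -/
def dK (v : ℕ) : ℕ := (Nat.unpair v).1
/-- The coordinate that follows after a match. -/
def dC (v : ℕ) : ℕ := (Nat.unpair (Nat.unpair v).2).1
/-- The coordinate that follows without a match. -/
def dD (v : ℕ) : ℕ := (Nat.unpair (Nat.unpair (Nat.unpair v).2).2).1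
/-- The target listed by a value. -/
def dT (v : ℕ) : ℕ := (Nat.unpair (Nat.unpair (Nat.unpair (Nat.unpair v).2).2).2).1

/-- The value with given data. -/
def mkv (k c d t n : ℕ) : ℕ := Nat.pair k (Nat.pair c (Nat.pair d (Nat.pair t n)))

@[simp] theorem dK_mkv (k c d t n : ℕ) : dK (mkv k c d t n) = k := by simp [dK, mkv]
@[simp] theorem dC_mkv (k c d t n : ℕ) : dC (mkv k c d t n) = c := by simp [dC, mkv]
@[simp] theorem dD_mkv (k c d t n : ℕ) : dD (mkv k c d t n) = d := by simp [dD, mkv]
@[simp] theorem dT_mkv (k c d t n : ℕ) : dT (mkv k c d t n) = t := by simp [dT, mkv]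

theorem le_mkv (k c d t n : ℕ) : n ≤ mkv k c d t n := by
  unfold mkv
  refine le_trans ?_ (Nat.right_le_pair _ _)
  refine le_trans ?_ (Nat.right_le_pair _ _)
  refine le_trans ?_ (Nat.right_le_pair _ _)
  exact Nat.right_le_pair _ _

theorem pair_mono {a b c d : ℕ} (h1 : a ≤ b) (h2 : c ≤ d) : Nat.pair a c ≤ Nat.pair b d := by
  have h3 : Nat.pair a c ≤ Nat.pair b c := by
    rcases h1.eq_or_lt with h | h
    · rw [h]
    · exact (Nat.pair_lt_pair_left c h).le
  have h4 : Nat.pair b c ≤ Nat.pair b d := by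
    rcases h2.eq_or_lt with h | h
    · rw [h]
    · exact (Nat.pair_lt_pair_right b h).le
  exact h3.trans h4

/-- A bound for all values with data at most `M`. -/
def bd (M : ℕ) : ℕ := mkv M M M M M

theorem mkv_le_bd {k c d t n M : ℕ} (h1 : k ≤ M) (h2 : c ≤ M) (h3 : d ≤ M) (h4 : t ≤ M)
    (h5 : n ≤ M) : mkv k c d t n ≤ bd M := by
  unfold mkv bd mkv
  exact pair_mono h1 (pair_mono h2 (pair_mono h3 (pair_mono h4 h5)))

theorem bd_mono {M N : ℕ} (h : M ≤ N) : bd M ≤ bd N := by
  exact mkv_le_bd h h h h h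

theorem le_bd (M : ℕ) : M ≤ bd M := le_mkv _ _ _ _ _

/-! ### Walks -/

/-- The next position after `x = (e, s)` if the coordinate `e` has value `v`. -/
def nxt (v : ℕ) (x : ℕ × ℕ) : ℕ × ℕ := if x.2 = dK v then (dC v, x.1) else (dD v, x.2)

/-- One step of the walk; it does not move at missing coordinates. -/
def stp (y : PF) (x : ℕ × ℕ) : ℕ × ℕ :=
  match y x.1 with
  | none => x
  | some v => nxt v x

theorem stp_none {y : PF} {x : ℕ × ℕ} (h : y x.1 = none) : stp y x = x := by
  unfold stp; rw [h]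

theorem stp_some {y : PF} {x : ℕ × ℕ} {v : ℕ} (h : y x.1 = some v) : stp y x = nxt v x := by
  unfold stp; rw [h]

/-- The walk of `y` from the position `x`. -/
def wk (y : PF) (x : ℕ × ℕ) (n : ℕ) : ℕ × ℕ := (stp y)^[n] x

@[simp] theorem wk_zero (y : PF) (x : ℕ × ℕ) : wk y x 0 = x := rfl

theorem wk_succ (y : PF) (x : ℕ × ℕ) (n : ℕ) : wk y x (n + 1) = stp y (wk y x n) :=
  Function.iterate_succ_apply' _ _ _

theorem wk_add (y : PF) (x : ℕ × ℕ) (n m : ℕ) : wk y x (n + m) = wk y (wk y x n) m := by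
  unfold wk
  rw [Nat.add_comm, Function.iterate_add_apply]

/-- `y'` extends `y`. -/
def Ext (y y' : PF) : Prop := ∀ d v, y d = some v → y' d = some v

theorem Ext.refl (y : PF) : Ext y y := fun _ _ h => h

theorem Ext.trans {y y' y'' : PF} (h : Ext y y') (h' : Ext y' y'') : Ext y y'' :=
  fun d v hd => h' d v (h d v hd)

theorem Ext.ne_none {y y' : PF} (h : Ext y y') {d : ℕ} (hd : y d ≠ none) : y' d ≠ none := by
  obtain ⟨v, hv⟩ := Option.ne_none_iff_exists'.1 hd
  rw [h d v hv]; simp

/-- The walk depends only on the values at the coordinates that it visits. -/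
theorem wk_congr {y y' : PF} {x : ℕ × ℕ} {n : ℕ}
    (h : ∀ k, k < n → y' (wk y x k).1 = y (wk y x k).1) : wk y' x n = wk y x n := by
  induction n with
  | zero => rfl
  | succ n ih =>
    have h1 := ih fun k hk => h k (Nat.lt_succ_of_lt hk)
    rw [wk_succ, wk_succ, h1]
    unfold stp
    rw [h n (Nat.lt_succ_self n)]

theorem wk_ext {y y' : PF} (hy : Ext y y') {x : ℕ × ℕ} {n : ℕ}
    (h : ∀ k, k < n → y (wk y x k).1 ≠ none) : wk y' x n = wk y x n := by
  refine wk_congr fun k hk => ?_
  obtain ⟨v, hv⟩ := Option.ne_none_iff_exists'.1 (h k hk)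
  rw [hv, hy _ v hv]

theorem wk_stop {y : PF} {x : ℕ × ℕ} {n : ℕ} (h : y (wk y x n).1 = none) {m : ℕ} (hm : n ≤ m) :
    wk y x m = wk y x n := by
  induction m, hm using Nat.le_induction with
  | base => rfl
  | succ m _ ih => rw [wk_succ, ih, stp_none h]

theorem wk_stop_unique {y : PF} {x : ℕ × ℕ} {n m : ℕ} (h : y (wk y x n).1 = none)
    (h' : y (wk y x m).1 = none) : wk y x n = wk y x m := by
  rcases le_total n m with hnm | hnm
  · exact (wk_stop h hnm).symm
  · exact wk_stop h' hnm

/-- The walk of `y` from `x` never stops. -/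
def InfWalk (y : PF) (x : ℕ × ℕ) : Prop := ∀ n, y (wk y x n).1 ≠ none

theorem InfWalk.wk_eq {y y' : PF} {x : ℕ × ℕ} (h : InfWalk y x) (hy : Ext y y') (n : ℕ) :
    wk y' x n = wk y x n := wk_ext hy fun k _ => h k

theorem InfWalk.ext {y y' : PF} {x : ℕ × ℕ} (h : InfWalk y x) (hy : Ext y y') : InfWalk y' x := by
  intro n
  rw [h.wk_eq hy]
  exact hy.ne_none (h n)

theorem infWalk_wk {y : PF} {x : ℕ × ℕ} {n : ℕ} (h : InfWalk y x) : InfWalk y (wk y x n) := by
  intro m
  rw [← wk_add]
  exact h _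

theorem infWalk_of_wk {y : PF} {x : ℕ × ℕ} {n : ℕ} (h : InfWalk y (wk y x n)) : InfWalk y x := by
  intro m
  by_contra hm
  have h1 := wk_stop hm (le_max_left m n)
  have h2 := h (max m n - n)
  rw [← wk_add, Nat.add_sub_cancel' (le_max_right m n), h1] at h2
  exact h2 hm

/-- The first missing coordinate of a walk that stops. -/
theorem exists_first {y : PF} {x : ℕ × ℕ} (h : ¬ InfWalk y x) :
    ∃ n, y (wk y x n).1 = none ∧ ∀ k, k < n → y (wk y x k).1 ≠ none := by
  classical
  unfold InfWalk at h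
  push Not at h
  exact ⟨Nat.find h, Nat.find_spec h, fun k hk => Nat.find_min h hk⟩

/-- The walk of `y` from `x` never stops, or stops at the coordinate `a`. -/
def Intact (y : PF) (a : ℕ) (x : ℕ × ℕ) : Prop :=
  ∀ n, y (wk y x n).1 = none → (wk y x n).1 = a

/-- If the walk of `u` is infinite, and `y` extends `u` without the coordinate `a`, then the walk
of `y` visits only positions of the walk of `u`. -/
theorem exists_wk_eq {u y : PF} {a : ℕ} {x : ℕ × ℕ} (hu : InfWalk u x)
    (hy : ∀ d v, d ≠ a → u d = some v → y d = some v) (ha : y a = none) (n : ℕ) :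
    ∃ m, m ≤ n ∧ wk y x n = wk u x m := by
  induction n with
  | zero => exact ⟨0, le_rfl, rfl⟩
  | succ n ih =>
    obtain ⟨m, hm, h⟩ := ih
    rw [wk_succ, h]
    obtain ⟨v, hv⟩ := Option.ne_none_iff_exists'.1 (hu m)
    by_cases hd : (wk u x m).1 = a
    · refine ⟨m, hm.trans (Nat.le_succ n), stp_none ?_⟩
      rw [hd]; exact ha
    · refine ⟨m + 1, Nat.succ_le_succ hm, ?_⟩
      rw [wk_succ, stp_some hv, stp_some (hy _ v hd hv)]

theorem InfWalk.intact {u y : PF} {a : ℕ} {x : ℕ × ℕ} (hu : InfWalk u x)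
    (hy : ∀ d v, d ≠ a → u d = some v → y d = some v) (ha : y a = none) : Intact y a x := by
  intro n hn
  obtain ⟨m, _, h⟩ := exists_wk_eq hu hy ha n
  rw [h] at hn ⊢
  obtain ⟨v, hv⟩ := Option.ne_none_iff_exists'.1 (hu m)
  by_contra hd
  rw [hy _ v hd hv] at hn
  cases hn

/-! ### The family -/

/-- Some marker points to `e`. The markers are the even coordinates `d ≥ 2`. -/
def Mk (y : PF) (e : ℕ) : Prop := ∃ d w, 2 ≤ d ∧ Even d ∧ y d = some w ∧ dC w = e

/-- The registry walk from `r` lists the target of `v` at index `m`. -/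
def Lists (y : PF) (r m v : ℕ) : Prop :=
  y (wk y (r, 0) m).1 = some v ∧ (wk y (r, 0) m).2 = dK v ∧ dT v ≠ 0

/-- The conditions at a marked coordinate `e` of the main walk with value `b`; here `a` is the end
of the main walk, `r` the beginning of the registry of `e`, and `nx` the next position. -/
def GapOK (y : PF) (e a r b : ℕ) (nx : ℕ × ℕ) : Prop :=
  (∀ m, m ≤ b → (wk y (r, 0) m).1 ≠ e) ∧
  (∀ m, m ≤ b → y (wk y (r, 0) m).1 = none → (wk y (r, 0) m).1 = a) ∧
  (∀ m v, m ≤ b → Lists y r m v → Intact y a (dT v, e)) ∧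
  ∃ m v, m ≤ b ∧ Lists y r m v ∧ nx = (dT v, e)

/-- The registry from `r` and all the targets in it are complete. -/
def RegInf (y : PF) (a r : ℕ) : Prop :=
  InfWalk y (r, 0) ∧ ∀ m v, Lists y r m v → InfWalk y (dT v, a)

/-- The main walk. -/
def P (y : PF) (n : ℕ) : ℕ × ℕ := wk y (1, 0) n

theorem P_zero (y : PF) : P y 0 = (1, 0) := rfl

theorem P_succ (y : PF) (n : ℕ) : P y (n + 1) = stp y (P y n) := wk_succ _ _ _

/-- Points whose main walk stops after `n` steps. -/
structure IsF (y : PF) (n : ℕ) : Prop where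
  zero : y 0 ≠ none
  pos : 0 < n
  inc : ∀ k, k < n → (P y k).1 < (P y (k + 1)).1
  stop : y (P y n).1 = none
  mark : Mk y (P y n).1
  gap : ∀ k vm b, k + 1 < n → Mk y (P y (k + 1)).1 → y (P y k).1 = some vm →
    y (P y (k + 1)).1 = some b → GapOK y (P y (k + 1)).1 (P y n).1 (dT vm) b (P y (k + 2))
  reg : ∀ k vm, n = k + 1 → y (P y k).1 = some vm → RegInf y (P y n).1 (dT vm)

/-- The family: points with infinite main walk without the root (`n = 0`), and points with finite
main walk. -/
def FF (y : PF) (n : ℕ) : Prop := (n = 0 ∧ y 0 = none ∧ InfWalk y (1, 0)) ∨ IsF y n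

/-- The level of a point of the family. -/
def lev (y : PF) (n : ℕ) : ℕ := if n = 0 then 0 else (P y n).1

/-- The gaps. -/
def IsGap (y : PF) (n t : ℕ) : Prop :=
  t = 0 ∨ ∃ k, k < n ∧ Mk y (P y (k + 1)).1 ∧ t = (P y (k + 1)).1

open Classical in
/-- The last gap before `t`. -/
noncomputable def pg (y : PF) (n t : ℕ) : ℕ := Nat.findGreatest (IsGap y n) (t - 1)

open Classical in
/-- The element of the Baire space that belongs to a point of the family. -/
noncomputable def xv (y : PF) (n t : ℕ) : ℕ :=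
  if t = 0 then 2 else if IsGap y n t then 2 * ((y (pg y n t)).getD 0) + 2 else
    match y t with
    | none => 0
    | some v => 2 * v + 1

/-- `y` is in the basic neighbourhood of `v` with bounds `g`. -/
def Near (v : PF) (g : ℕ → ℕ) (y : PF) : Prop :=
  (∀ d w, v d = some w → y d = some w) ∧ ∀ d w, v d = none → y d = some w → g d ≤ w

/-- The combinatorial core: for all basic neighbourhoods of the points of the family there is a
point that lies in the neighbourhoods of points of the family with unbounded levels. -/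
def Core : Prop := ∀ (k : PF → ℕ) (g : PF → ℕ → ℕ), ∃ (u : ℕ → PF) (n x : ℕ → ℕ) (w : PF),
  ∀ l, FF (u l) (n l) ∧ (∀ t, t < k (u l) → x t = xv (u l) (n l) t) ∧ Near (u l) (g (u l)) w ∧
    l ≤ lev (u l) (n l)

theorem IsF.dom {y : PF} {n : ℕ} (h : IsF y n) {k : ℕ} (hk : k < n) : y (P y k).1 ≠ none := by
  intro h1
  have h2 := h.inc k hk
  rw [P_succ, stp_none h1] at h2
  exact lt_irrefl _ h2

theorem IsF.lt {y : PF} {n : ℕ} (h : IsF y n) {j k : ℕ} (hjk : j < k) (hk : k ≤ n) :
    (P y j).1 < (P y k).1 := by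
  induction k, hjk using Nat.le_induction with
  | base => exact h.inc j hk
  | succ k _ ih => exact (ih (by omega)).trans (h.inc k hk)

theorem FF.unique {y : PF} {n m : ℕ} (h : FF y n) (h' : FF y m) : n = m := by
  rcases h with ⟨rfl, h0, _⟩ | h
  · rcases h' with ⟨rfl, _, _⟩ | h'
    · rfl
    · exact absurd h0 h'.zero
  · rcases h' with ⟨_, h0, _⟩ | h'
    · exact absurd h0 h.zero
    · rcases lt_trichotomy n m with hl | hl | hl
      · exact absurd h.stop (h'.dom hl)
      · exact hl
      · exact absurd h'.stop (h.dom hl)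

end Pool.Agent.Helper12.BX
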