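import Mathlib
import Pool.Agent.Helper12.BX.Walk

/-!
# Monitors and conditions
-/

set_option autoImplicit false

namespace Pool.Agent.Helper12.BX

open Relation

/-! ### Descending paths -/

/-- A step along the `D`-pointers with key at least `N`. -/
def Ds (N : ℕ) (p : PF) (f g : ℕ) : Prop := ∃ v, p f = some v ∧ dD v = g ∧ f < g ∧ N ≤ dK v

/-- A path along the `D`-pointers with keys at least `N` to a missing coordinate. -/
def DP (N : ℕ) (p : PF) (f e : ℕ) : Prop := TransGen (Ds N p) f e ∧ p e = none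

theorem Ds.lt {N : ℕ} {p : PF} {f g : ℕ} (h : Ds N p f g) : f < g := by
  obtain ⟨v, _, _, h, _⟩ := h
  exact h

theorem Ds.mono {N N' : ℕ} {p p' : PF} {f g : ℕ} (h : Ds N p f g) (hN : N' ≤ N) (hp : Ext p p') :
    Ds N' p' f g := by
  obtain ⟨v, h1, h2, h3, h4⟩ := h
  exact ⟨v, hp _ _ h1, h2, h3, hN.trans h4⟩

theorem transGen_lt {N : ℕ} {p : PF} {f e : ℕ} (h : TransGen (Ds N p) f e) : f < e := by
  induction h with
  | single h => exact h.lt
  | tail _ h ih => exact ih.trans h.lt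

theorem transGen_mono {N N' : ℕ} {p p' : PF} {f e : ℕ} (h : TransGen (Ds N p) f e) (hN : N' ≤ N)
    (hp : Ext p p') : TransGen (Ds N' p') f e :=
  TransGen.mono (fun a b (hab : Ds N p a b) => hab.mono hN hp) f e h

theorem transGen_congr {N M : ℕ} {p p' : PF} {f e : ℕ} (h : TransGen (Ds N p) f e)
    (hp : ∀ d, M ≤ d → p' d = p d) (hf : M ≤ f) : TransGen (Ds N p') f e := by
  induction h with
  | single h =>
    obtain ⟨v, h1, h2⟩ := h
    exact TransGen.single ⟨v, by rw [hp _ hf]; exact h1, h2⟩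
  | tail h' h ih =>
    obtain ⟨v, h1, h2⟩ := h
    refine ih.tail ⟨v, ?_, h2⟩
    rw [hp _ (hf.trans (transGen_lt h').le)]; exact h1

/-! ### Monitors -/

/-- A monitor. -/
structure Mon where
  S : ℕ → Finset ℕ
  b : ℕ → ℕ
  f : ℕ → ℕ
  mono : StrictMono f
  bound : ∀ i, bd (f i + i) ≤ b i

/-- The monitor `m` is intact in `p` with free coordinates `A`. -/
def Ok (m : Mon) (p : PF) (A : Set ℕ) : Prop :=
  ∀ N, ∃ i, N ≤ i ∧ (∀ d ∈ m.S i, ∀ v, p d = some v → v ≤ m.b i) ∧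
    ∃ e ∈ A, e ∉ m.S i ∧ DP N p (m.f i) e

theorem Ok.mono {m : Mon} {p : PF} {A B : Set ℕ} (h : Ok m p A) (hAB : A ⊆ B) : Ok m p B := by
  intro N
  obtain ⟨i, h1, h2, e, h3, h4⟩ := h N
  exact ⟨i, h1, h2, e, hAB h3, h4⟩

theorem Mon.le_f (m : Mon) (i : ℕ) : i ≤ m.f i := m.mono.le_apply

theorem Mon.le_b (m : Mon) (i : ℕ) : i ≤ m.b i :=
  (Nat.le_add_left i (m.f i)).trans ((le_bd _).trans (m.bound i))

/-- Finite changes preserve `Ok`. -/
theorem Ok.congr {m : Mon} {p p' : PF} {A A' : Set ℕ} (h : Ok m p A) (M : ℕ)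
    (hp : ∀ d, M ≤ d → p' d = p d) (hA : ∀ d, M ≤ d → d ∈ A → d ∈ A') : Ok m p' A' := by
  intro N
  set V := (Finset.range M).sup fun d => (p' d).getD 0 with hV
  obtain ⟨i, h1, h2, e, h3, h4, h5, h6⟩ := h (max N (max M V))
  have hN : N ≤ i := (le_max_left _ _).trans h1
  have hM : M ≤ i := ((le_max_left _ _).trans (le_max_right _ _)).trans h1
  have hVi : V ≤ i := ((le_max_right _ _).trans (le_max_right _ _)).trans h1
  have hMf : M ≤ m.f i := hM.trans (m.le_f i)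
  have hMe : M ≤ e := hMf.trans (transGen_lt h5).le
  refine ⟨i, hN, ?_, e, hA e hMe h3, h4, ?_, ?_⟩
  · intro d hd v hv
    by_cases hdM : M ≤ d
    · rw [hp d hdM] at hv
      exact h2 d hd v hv
    · have h7 : (p' d).getD 0 ≤ V :=
        Finset.le_sup (f := fun d => (p' d).getD 0) (Finset.mem_range.2 (not_le.1 hdM))
      rw [hv] at h7
      have h8 : v ≤ V := h7
      exact h8.trans (hVi.trans (m.le_b i))
  · exact transGen_congr (transGen_mono h5 (le_max_left _ _) (Ext.refl p)) hp hMf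
  · rw [hp e hMe]; exact h6

/-- Arbitrarily large free coordinates. -/
theorem Ok.unbounded {m : Mon} {p : PF} {A : Set ℕ} (h : Ok m p A) (N : ℕ) :
    ∃ e ∈ A, N < e ∧ p e = none := by
  obtain ⟨i, h1, h2, e, h3, h4, h5, h6⟩ := h N
  exact ⟨e, h3, (h1.trans (m.le_f i)).trans_lt (transGen_lt h5), h6⟩

/-! ### Registry walks -/

/-- A step of the walk such that the target listed at it (if any) has the property `Q`. -/
def Sq (p : PF) (Q : ℕ → Prop) (x y : ℕ × ℕ) : Prop :=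
  ∃ v, p x.1 = some v ∧ nxt v x = y ∧ (x.2 = dK v → dT v ≠ 0 → Q (dT v))

theorem Sq.mono {p p' : PF} {Q Q' : ℕ → Prop} {x y : ℕ × ℕ} (h : Sq p Q x y) (hp : Ext p p')
    (hQ : ∀ t, Q t → Q' t) : Sq p' Q' x y := by
  obtain ⟨v, h1, h2, h3⟩ := h
  exact ⟨v, hp _ _ h1, h2, fun h h' => hQ _ (h3 h h')⟩

theorem sq_mono {p p' : PF} {Q Q' : ℕ → Prop} {x y : ℕ × ℕ} (h : ReflTransGen (Sq p Q) x y)
    (hp : Ext p p') (hQ : ∀ t, Q t → Q' t) : ReflTransGen (Sq p' Q') x y :=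
  ReflTransGen.mono (fun a b (hab : Sq p Q a b) => hab.mono hp hQ) x y h

theorem sq_reach {p : PF} {Q : ℕ → Prop} {x y : ℕ × ℕ} (h : ReflTransGen (Sq p Q) x y) :
    ∃ n, wk p x n = y := by
  induction h with
  | refl => exact ⟨0, rfl⟩
  | tail _ h ih =>
    obtain ⟨n, hn⟩ := ih
    obtain ⟨v, h1, h2, _⟩ := h
    exact ⟨n + 1, by rw [wk_succ, hn, stp_some h1, h2]⟩

theorem sq_list {p : PF} {Q : ℕ → Prop} {x y : ℕ × ℕ} (h : ReflTransGen (Sq p Q) x y)
    (hy : p y.1 = none) (m v : ℕ) (h1 : p (wk p x m).1 = some v) (h2 : (wk p x m).2 = dK v)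
    (h3 : dT v ≠ 0) : Q (dT v) := by
  induction h using ReflTransGen.head_induction_on generalizing m with
  | refl =>
    rw [wk_stop (n := 0) hy (Nat.zero_le m), wk_zero, hy] at h1
    cases h1
  | head h _ ih =>
    obtain ⟨w, h4, h5, h6⟩ := h
    cases m with
    | zero =>
      rw [wk_zero] at h1 h2
      rw [h4] at h1
      obtain rfl : w = v := by simpa using h1
      exact h6 h2 h3
    | succ m =>
      rw [Nat.add_comm, wk_add, wk_succ, wk_zero, stp_some h4, h5] at h1 h2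
      exact ih m h1 h2

/-- The walk follows a descending path without a match. -/
theorem sq_of_transGen {N : ℕ} {p : PF} {Q : ℕ → Prop} {f e s : ℕ} (h : TransGen (Ds N p) f e)
    (hs : s < N) : ReflTransGen (Sq p Q) (f, s) (e, s) := by
  have key : ∀ f g, Ds N p f g → Sq p Q (f, s) (g, s) := by
    rintro f g ⟨v, h1, h2, _, h4⟩
    have hne : s ≠ dK v := by omega
    refine ⟨v, h1, ?_, fun h => absurd h hne⟩
    unfold nxt
    rw [if_neg hne, h2]
  induction h with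
  | single h => exact ReflTransGen.single (key _ _ h)
  | tail _ h ih => exact ih.tail (key _ _ h)

/-! ### Conditions -/

/-- A condition. -/
structure Cond where
  p : PF
  h : ℕ → ℕ
  A : Set ℕ
  M : Set Mon
  a : ℕ
  r : ℕ
  ρ : ℕ
  τ : ℕ
  dis : ∀ d ∈ A, p d = none
  pa : p a = none
  aA : a ∉ A
  pρ : p ρ = none
  ρA : ρ ∉ A
  ne : a ≠ ρ
  reg : ReflTransGen (Sq p fun t => InfWalk p (t, a)) (r, 0) (ρ, τ)
  cnt : M.Countable
  nem : M.Nonempty
  ok : ∀ m ∈ M, Ok m p A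

/-- The order of conditions. -/
structure Le (c' c : Cond) : Prop where
  a : c'.a = c.a
  r : c'.r = c.r
  ext : Ext c.p c'.p
  new : ∀ d v, c.p d = none → c'.p d = some v → (d ∈ c.A ∨ d = c.ρ) ∧ c.h d ≤ v
  h : ∀ d, c.h d ≤ c'.h d
  A : c'.A ⊆ c.A
  M : c.M ⊆ c'.M
  ρ : c'.ρ ∈ c.A ∨ c'.ρ = c.ρ

instance : Preorder Cond where
  le := Le
  le_refl c := ⟨rfl, rfl, Ext.refl _, fun d v h h' => (by rw [h] at h'; cases h'), fun _ => le_rfl,
    subset_rfl, subset_rfl, Or.inr rfl⟩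
  le_trans x y z hxy hyz := by
    refine ⟨hxy.a.trans hyz.a, hxy.r.trans hyz.r, hyz.ext.trans hxy.ext, ?_,
      fun d => (hyz.h d).trans (hxy.h d), hxy.A.trans hyz.A, hyz.M.trans hxy.M, ?_⟩
    · intro d v hd hv
      rcases hy : y.p d with _ | w
      · obtain ⟨h1, h2⟩ := hxy.new d v hy hv
        refine ⟨?_, (hyz.h d).trans h2⟩
        rcases h1 with h1 | h1
        · exact Or.inl (hyz.A h1)
        · rw [h1]; exact hyz.ρ
      · have := hxy.ext d w hy
        rw [this] at hv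
        obtain rfl : w = v := by simpa using hv
        exact hyz.new d w hd hy
    · rcases hxy.ρ with h | h
      · exact Or.inl (hyz.A h)
      · rw [h]; exact hyz.ρ

theorem le_def {c' c : Cond} : c' ≤ c ↔ Le c' c := Iff.rfl

theorem Cond.unbounded (c : Cond) (N : ℕ) : ∃ e ∈ c.A, N < e := by
  obtain ⟨m, hm⟩ := c.nem
  obtain ⟨e, h1, h2, _⟩ := (c.ok m hm).unbounded N
  exact ⟨e, h1, h2⟩

/-- The monitor `m` is secured at an index at least `N`, with a free coordinate from `A₀`. -/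
def Res (c : Cond) (A₀ : Set ℕ) (m : Mon) (N : ℕ) : Prop :=
  ∃ i, N ≤ i ∧ (∀ d ∈ m.S i, ∀ v, c.p d = some v → v ≤ m.b i) ∧
    (∀ d ∈ m.S i, d ∉ c.A ∧ d ≠ c.ρ) ∧
    ∃ e ∈ A₀, e ∉ m.S i ∧ e ∉ c.A ∧ e ≠ c.ρ ∧ DP N c.p (m.f i) e

theorem Le.none {c' c : Cond} (h : c' ≤ c) {d : ℕ} (h1 : c.p d = none) (h2 : d ∉ c.A)
    (h3 : d ≠ c.ρ) : c'.p d = none := by
  rcases hd : c'.p d with _ | v
  · rfl
  · rcases (h.new d v h1 hd).1 with h4 | h4
    · exact absurd h4 h2
    · exact absurd h4 h3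

theorem Res.le {c c' : Cond} {A₀ : Set ℕ} {m : Mon} {N : ℕ} (h : Res c A₀ m N) (hc : c' ≤ c) :
    Res c' A₀ m N := by
  obtain ⟨i, h1, h2, h3, e, h4, h5, h6, h7, h8, h9⟩ := h
  refine ⟨i, h1, ?_, ?_, e, h4, h5, fun h => h6 (hc.A h), ?_, ?_, Le.none hc h9 h6 h7⟩
  · intro d hd v hv
    rcases hd' : c.p d with _ | w
    · rw [Le.none hc hd' (h3 d hd).1 (h3 d hd).2] at hv
      cases hv
    · have := hc.ext d w hd'
      rw [this] at hv
      obtain rfl : w = v := by simpa using hv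
      exact h2 d hd w hd'
  · intro d hd
    refine ⟨fun h => (h3 d hd).1 (hc.A h), ?_⟩
    rintro rfl
    rcases hc.ρ with h | h
    · exact (h3 _ hd).1 h
    · exact (h3 _ hd).2 h
  · rintro rfl
    rcases hc.ρ with h | h
    · exact h6 h
    · exact h7 h
  · exact transGen_mono h8 le_rfl hc.ext

theorem Res.mono {c : Cond} {A₀ A₁ : Set ℕ} {m : Mon} {N : ℕ} (h : Res c A₀ m N) (hA : A₀ ⊆ A₁) :
    Res c A₁ m N := by
  obtain ⟨i, h1, h2, h3, e, h4, h5⟩ := h
  exact ⟨i, h1, h2, h3, e, hA h4, h5⟩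

/-- Good chains. -/
structure Chain (c : ℕ → Cond) : Prop where
  dec : ∀ i, c (i + 1) ≤ c i
  res : ∀ k, ∀ m ∈ (c k).M, ∀ N, ∃ n, Res (c n) (c k).A m N
  fill : ∀ k, ∃ n, (c n).p (c k).ρ ≠ none

theorem chain_le {c : ℕ → Cond} (hc : ∀ i, c (i + 1) ≤ c i) {i j : ℕ} (hij : i ≤ j) :
    c j ≤ c i := by
  induction j, hij using Nat.le_induction with
  | base => exact le_rfl
  | succ j _ ih => exact (hc j).trans ih

/-- `u` is the union of the functions of the conditions. -/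
def IsLim (c : ℕ → Cond) (u : PF) : Prop :=
  (∀ i, Ext (c i).p u) ∧ ∀ d v, u d = some v → ∃ i, (c i).p d = some v

theorem exists_lim {c : ℕ → Cond} (hc : ∀ i, c (i + 1) ≤ c i) : ∃ u, IsLim c u := by
  classical
  refine ⟨fun d => if h : ∃ i, (c i).p d ≠ none then (c (Nat.find h)).p d else none, ?_, ?_⟩
  · intro i d v hv
    have h : ∃ i, (c i).p d ≠ none := ⟨i, by rw [hv]; simp⟩
    have h1 : (c (Nat.find h)).p d ≠ none := Nat.find_spec h
    obtain ⟨w, hw⟩ := Option.ne_none_iff_exists'.1 h1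
    have h2 : Nat.find h ≤ i := Nat.find_min' h (by rw [hv]; simp)
    have h3 := (chain_le hc h2).ext d w hw
    simp only [dif_pos h]
    rw [hw, ← h3, hv]
  · intro d v hv
    by_cases h : ∃ i, (c i).p d ≠ none
    · simp only [dif_pos h] at hv
      exact ⟨_, hv⟩
    · simp only [dif_neg h] at hv
      cases hv

/-- The properties of limits of good chains below `Q`. -/
structure Below (Q : Cond) (y : PF) : Prop where
  ext : Ext Q.p y
  new : ∀ d v, Q.p d = none → y d = some v → (d ∈ Q.A ∨ d = Q.ρ) ∧ Q.h d ≤ v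
  pa : y Q.a = none
  reg : RegInf y Q.a Q.r
  ok : ∀ m ∈ Q.M, Ok m y {d | d ∈ Q.A ∧ y d = none}

theorem IsLim.exists_finite {c : ℕ → Cond} (hc : ∀ i, c (i + 1) ≤ c i) {y : PF} (hy : IsLim c y)
    (f : ℕ → ℕ) (n : ℕ) : ∃ i, ∀ k, k < n → (c i).p (f k) = y (f k) := by
  induction n with
  | zero => exact ⟨0, fun k hk => absurd hk (Nat.not_lt_zero k)⟩
  | succ n ih =>
    obtain ⟨i, hi⟩ := ih
    have hex : ∃ j, (c j).p (f n) = y (f n) := by
      rcases hd : y (f n) with _ | v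
      · refine ⟨0, ?_⟩
        rcases hd' : (c 0).p (f n) with _ | w
        · rfl
        · rw [hy.1 0 _ w hd'] at hd; cases hd
      · exact hy.2 _ v hd
    obtain ⟨j, hj⟩ := hex
    have hup : ∀ i j d, i ≤ j → (c i).p d = y d → (c j).p d = y d := by
      intro i j d hij h
      rcases hd : y d with _ | v
      · rcases hd' : (c j).p d with _ | w
        · rfl
        · rw [hy.1 j _ w hd'] at hd; cases hd
      · rw [hd] at h
        exact (chain_le hc hij).ext d v h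
    refine ⟨max i j, fun k hk => ?_⟩
    rcases Nat.lt_succ_iff_lt_or_eq.1 hk with h | rfl
    · exact hup i _ _ (le_max_left _ _) (hi k h)
    · exact hup j _ _ (le_max_right _ _) hj

theorem below_of_chain {c : ℕ → Cond} (hc : Chain c) {y : PF} (hy : IsLim c y) {Q : Cond}
    (hQ : c 0 ≤ Q) : Below Q y := by
  have hle : ∀ i, c i ≤ Q := fun i => (chain_le hc.dec (Nat.zero_le i)).trans hQ
  have hr : ∀ i, (c i).r = Q.r := fun i => (hle i).r
  have ha : ∀ i, (c i).a = Q.a := fun i => (hle i).a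
  refine ⟨hQ.ext.trans (hy.1 0), ?_, ?_, ⟨?_, ?_⟩, ?_⟩
  · intro d v hd hv
    obtain ⟨i, hi⟩ := hy.2 d v hv
    exact (hle i).new d v hd hi
  · rcases hd : y Q.a with _ | v
    · rfl
    · obtain ⟨i, hi⟩ := hy.2 _ v hd
      rw [← ha i, (c i).pa] at hi
      cases hi
  · by_contra hno
    obtain ⟨n, hn1, hn2⟩ := exists_first hno
    obtain ⟨i, hi⟩ := hy.exists_finite hc.dec (fun k => (wk y (Q.r, 0) k).1) (n + 1)
    have h1 : wk (c i).p (Q.r, 0) n = wk y (Q.r, 0) n :=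
      wk_congr fun k hk => hi k (Nat.lt_succ_of_lt hk)
    have h2 : (c i).p (wk (c i).p (Q.r, 0) n).1 = none := by
      rw [h1, hi n (Nat.lt_succ_self n)]; exact hn1
    obtain ⟨m, hm⟩ := sq_reach (c i).reg
    rw [hr i] at hm
    have h3 : (c i).p (wk (c i).p (Q.r, 0) m).1 = none := by
      rw [hm]; exact (c i).pρ
    have h4 := wk_stop_unique h2 h3
    rw [hm, h1] at h4
    obtain ⟨j, hj⟩ := hc.fill i
    apply (hy.1 j).ne_none hj
    rw [h4] at hn1
    exact hn1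
  · intro m v hL
    obtain ⟨i, hi⟩ := hy.exists_finite hc.dec (fun k => (wk y (Q.r, 0) k).1) (m + 1)
    have h1 : wk (c i).p (Q.r, 0) m = wk y (Q.r, 0) m :=
      wk_congr fun k hk => hi k (Nat.lt_succ_of_lt hk)
    have h2 : (c i).p (wk (c i).p (Q.r, 0) m).1 = some v := by
      rw [h1, hi m (Nat.lt_succ_self m)]; exact hL.1
    have h3 := sq_list (c i).reg (c i).pρ m v (by rw [hr i]; exact h2)
      (by rw [hr i, h1]; exact hL.2.1) hL.2.2
    rw [ha i] at h3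
    exact h3.ext (hy.1 i)
  · intro m hm N
    obtain ⟨n, i, h1, h2, h3, e, h4, h5, h6, h7, h8, h9⟩ := hc.res 0 m (hQ.M hm) N
    have hkeep : ∀ d, (c n).p d = none → d ∉ (c n).A → d ≠ (c n).ρ → y d = none := by
      intro d hd1 hd2 hd3
      rcases hd : y d with _ | v
      · rfl
      · obtain ⟨k, hk⟩ := hy.2 d v hd
        have h10 := (chain_le hc.dec (le_max_right n k)).ext d v hk
        rw [Le.none (chain_le hc.dec (le_max_left n k)) hd1 hd2 hd3] at h10
        cases h10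
    refine ⟨i, h1, ?_, e, ⟨hQ.A h4, hkeep e h9 h6 h7⟩, h5, ?_, hkeep e h9 h6 h7⟩
    · intro d hd v hv
      rcases hd' : (c n).p d with _ | w
      · rw [hkeep d hd' (h3 d hd).1 (h3 d hd).2] at hv
        cases hv
      · have := hy.1 n d w hd'
        rw [this] at hv
        obtain rfl : w = v := by simpa using hv
        exact h2 d hd w hd'
    · exact transGen_mono h8 le_rfl (hy.1 n)

/-- `p` with the value `v` at `d`. -/
def up (p : PF) (d v : ℕ) : PF := fun x => if x = d then some v else p x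

@[simp] theorem up_self (p : PF) (d v : ℕ) : up p d v d = some v := by simp [up]

theorem up_ne {p : PF} {d v x : ℕ} (h : x ≠ d) : up p d v x = p x := by simp [up, h]

theorem ext_up {p : PF} {d v : ℕ} (h : p d = none) : Ext p (up p d v) := by
  intro x w hw
  by_cases hx : x = d
  · rw [hx, h] at hw; cases hw
  · rw [up_ne hx]; exact hw

/-- Reservation. -/
theorem reserve (c : Cond) {m : Mon} (hm : m ∈ c.M) (N : ℕ) :
    ∃ c', c' ≤ c ∧ Res c' c.A m N ∧ c'.p c.ρ ≠ none := by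
  classical
  obtain ⟨ρ1, hρ1, hρN⟩ := c.unbounded N
  set v0 := mkv c.τ ρ1 ρ1 0 (c.h c.ρ) with hv0
  set p1 := up c.p c.ρ v0 with hp1
  have hρρ1 : ρ1 ≠ c.ρ := fun h => c.ρA (h ▸ hρ1)
  have ext1 : Ext c.p p1 := ext_up c.pρ
  have hok1 : Ok m p1 {d | d ∈ c.A ∧ d ≠ ρ1} := by
    refine (c.ok m hm).congr (max c.ρ ρ1 + 1) ?_ ?_
    · intro d hd
      exact up_ne (by omega)
    · intro d hd h
      exact ⟨h, by omega⟩
  obtain ⟨i, hi, h2, e, ⟨heA, heρ1⟩, heS, hDP, hpe⟩ := hok1 (N + ρ1 + 1 + c.ρ + c.h ρ1)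
  set v1 := mkv c.ρ (m.f i) (m.f i) 0 (c.h ρ1) with hv1
  have hv1b : v1 ≤ m.b i := by
    refine le_trans (mkv_le_bd (M := m.f i + i) ?_ ?_ ?_ ?_ ?_) (m.bound i) <;> omega
  obtain ⟨ρ2, hρ2A, hρ2⟩ := c.unbounded (max (max e ρ1) ((m.S i).sup id))
  obtain ⟨e2, he2A, he2⟩ := c.unbounded ρ2
  have heρ : e ≠ c.ρ := fun h => c.ρA (h ▸ heA)
  have hρ2ρ : ρ2 ≠ c.ρ := fun h => c.ρA (h ▸ hρ2A)
  have he2ρ : e2 ≠ c.ρ := fun h => c.ρA (h ▸ he2A)
  have hρ2e : e < ρ2 := lt_of_le_of_lt ((le_max_left _ _).trans (le_max_left _ _)) hρ2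
  have hρ2ρ1 : ρ1 < ρ2 := lt_of_le_of_lt ((le_max_right _ _).trans (le_max_left _ _)) hρ2
  have hρ2S : ∀ d ∈ m.S i, d < ρ2 := by
    intro d hd
    have h := Finset.le_sup (f := id) hd
    exact lt_of_le_of_lt (h.trans (le_max_right _ _)) hρ2
  set v2 := mkv ρ1 ρ2 e2 0 (c.h e) with hv2
  set p3 := up (up p1 ρ1 v1) e v2 with hp3
  have hp1ρ1 : p1 ρ1 = none := by rw [hp1, up_ne hρρ1]; exact c.dis _ hρ1
  have ext2 : Ext p1 (up p1 ρ1 v1) := ext_up hp1ρ1
  have ext3 : Ext (up p1 ρ1 v1) p3 := ext_up (by rw [up_ne heρ1]; exact hpe)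
  have ext13 : Ext p1 p3 := ext2.trans ext3
  have ext03 : Ext c.p p3 := ext1.trans ext13
  have hp3none : ∀ d, d ≠ e → d ≠ ρ1 → d ≠ c.ρ → p3 d = c.p d := by
    intro d h1 h2 h3
    rw [hp3, up_ne h1, up_ne h2, hp1, up_ne h3]
  have hp3ρ : p3 c.ρ = some v0 := ext13 _ _ (by rw [hp1]; exact up_self _ _ _)
  have hp3ρ1 : p3 ρ1 = some v1 := ext3 _ _ (up_self _ _ _)
  have hp3e : p3 e = some v2 := up_self _ _ _
  have haρ1 : c.a ≠ ρ1 := fun h => c.aA (h ▸ hρ1)
  have hae : c.a ≠ e := fun h => c.aA (h ▸ heA)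
  have haρ2 : c.a ≠ ρ2 := fun h => c.aA (h ▸ hρ2A)
  have hnew : ∀ d v, c.p d = none → p3 d = some v → (d ∈ c.A ∨ d = c.ρ) ∧ c.h d ≤ v := by
    intro d v hd hv
    by_cases h1 : d = e
    · subst h1
      rw [hp3e] at hv
      obtain rfl : v2 = v := by simpa using hv
      exact ⟨Or.inl heA, le_mkv _ _ _ _ _⟩
    · by_cases h2 : d = ρ1
      · subst h2
        rw [hp3ρ1] at hv
        obtain rfl : v1 = v := by simpa using hv
        exact ⟨Or.inl hρ1, le_mkv _ _ _ _ _⟩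
      · by_cases h3 : d = c.ρ
        · subst h3
          rw [hp3ρ] at hv
          obtain rfl : v0 = v := by simpa using hv
          exact ⟨Or.inr rfl, le_mkv _ _ _ _ _⟩
        · rw [hp3none d h1 h2 h3, hd] at hv
          cases hv
  have hreg : ReflTransGen (Sq p3 fun t => InfWalk p3 (t, c.a)) (c.r, 0) (ρ2, e) := by
    have s0 : ReflTransGen (Sq p3 fun t => InfWalk p3 (t, c.a)) (c.r, 0) (c.ρ, c.τ) :=
      sq_mono c.reg ext03 fun t ht => ht.ext ext03
    have s1 : Sq p3 (fun t => InfWalk p3 (t, c.a)) (c.ρ, c.τ) (ρ1, c.ρ) :=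
      ⟨v0, hp3ρ, by simp [nxt, hv0], fun _ h => absurd (by simp [hv0]) h⟩
    have s2 : Sq p3 (fun t => InfWalk p3 (t, c.a)) (ρ1, c.ρ) (m.f i, ρ1) :=
      ⟨v1, hp3ρ1, by simp [nxt, hv1], fun _ h => absurd (by simp [hv1]) h⟩
    have s3 : ReflTransGen (Sq p3 fun t => InfWalk p3 (t, c.a)) (m.f i, ρ1) (e, ρ1) :=
      sq_of_transGen (transGen_mono hDP le_rfl ext13) (by omega)
    have s4 : Sq p3 (fun t => InfWalk p3 (t, c.a)) (e, ρ1) (ρ2, e) :=
      ⟨v2, hp3e, by simp [nxt, hv2], fun _ h => absurd (by simp [hv2]) h⟩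
    exact (((s0.tail s1).tail s2).trans s3).tail s4
  refine ⟨{
      p := p3
      h := c.h
      A := {d | d ∈ c.A ∧ d ∉ m.S i ∧ d ≠ ρ1 ∧ d ≠ e ∧ d ≠ ρ2 ∧ d ≠ e2}
      M := c.M
      a := c.a
      r := c.r
      ρ := ρ2
      τ := e
      dis := ?_
      pa := ?_
      aA := fun h => c.aA h.1
      pρ := ?_
      ρA := fun h => h.2.2.2.2.1 rfl
      ne := haρ2
      reg := hreg
      cnt := c.cnt
      nem := c.nem
      ok := ?_ }, ?_, ?_, ?_⟩
  · rintro d ⟨h1, _, h3, h4, _, _⟩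
    rw [hp3none d h4 h3 (fun h => c.ρA (h ▸ h1))]
    exact c.dis d h1
  · rw [hp3none _ hae haρ1 c.ne]; exact c.pa
  · rw [hp3none _ hρ2e.ne' hρ2ρ1.ne' hρ2ρ]; exact c.dis _ hρ2A
  · intro m' hm'
    refine (c.ok m' hm').congr (max c.ρ e2 + 1) ?_ ?_
    · intro d hd
      exact hp3none d (by omega) (by omega) (by omega)
    · intro d hd h
      refine ⟨h, fun hS => ?_, by omega, by omega, by omega, by omega⟩
      have := hρ2S d hS
      omega
  · exact ⟨rfl, rfl, ext03, hnew, fun _ => le_rfl, fun d hd => hd.1, subset_rfl,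
      Or.inl hρ2A⟩
  · refine ⟨i, by omega, ?_, ?_, e2, he2A, ?_, fun h => h.2.2.2.2.2 rfl, he2.ne', ?_, ?_⟩
    · intro d hd v hv
      have hde : d ≠ e := fun h => heS (h ▸ hd)
      change p3 d = some v at hv
      by_cases h1 : d = ρ1
      · subst h1
        rw [hp3ρ1] at hv
        obtain rfl : v1 = v := by simpa using hv
        exact hv1b
      · rw [hp3, up_ne hde, up_ne h1] at hv
        exact h2 d hd v hv
    · intro d hd
      exact ⟨fun h => h.2.1 hd, (hρ2S d hd).ne⟩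
    · intro hS
      have := hρ2S e2 hS
      omega
    · refine TransGen.tail (b := e) (transGen_mono hDP (by omega) ext13) ?_
      exact ⟨v2, hp3e, by simp [hv2], by omega, by simp [hv2]; omega⟩
    · change p3 e2 = none
      rw [hp3none e2 (by omega) (by omega) he2ρ]
      exact c.dis _ he2A
  · change p3 c.ρ ≠ none
    rw [hp3ρ]; simp

end Pool.Agent.Helper12.BX
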