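import Mathlib
import Pool.Agent.Helper12.BX.Poset

/-!
# The ideal of small sets below a condition
-/

set_option autoImplicit false

namespace Pool.Agent.Helper12.BX

/-- `D` is dense below `P`. -/
def DenseBelow (D : Set Cond) (P : Cond) : Prop := ∀ Q, Q ≤ P → ∃ R, R ≤ Q ∧ R ∈ D

/-- `V` is small below `P`: there are countably many dense sets such that the limits of good
chains through them are not in `V`. -/
def Small (P : Cond) (V : Set PF) : Prop :=
  ∃ D : ℕ → Set Cond, (∀ i, DenseBelow (D i) P) ∧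
    ∀ c : ℕ → Cond, (∀ i, c i ≤ P) → Chain c → (∀ i, c i ∈ D i) → ∀ u, IsLim c u → u ∉ V

theorem Small.mono {P Q : Cond} {V W : Set PF} (h : Small P V) (h1 : Q ≤ P) (h2 : W ⊆ V) :
    Small Q W := by
  obtain ⟨D, hD, hc⟩ := h
  refine ⟨D, fun i R hR => hD i R (hR.trans h1), ?_⟩
  intro c c1 c2 c3 u hu hW
  exact hc c (fun i => (c1 i).trans h1) c2 c3 u hu (h2 hW)

theorem IsLim.sub {c : ℕ → Cond} {u : PF} (hc : ∀ i, c (i + 1) ≤ c i) (hu : IsLim c u)
    {f : ℕ → ℕ} (hf : StrictMono f) : IsLim (fun i => c (f i)) u := by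
  refine ⟨fun i d v h => hu.1 (f i) d v h, ?_⟩
  intro d v h
  obtain ⟨i, hi⟩ := hu.2 d v h
  exact ⟨i, (chain_le hc (hf.id_le i)).ext d v hi⟩

theorem Chain.sub {c : ℕ → Cond} (hc : Chain c) {f : ℕ → ℕ} (hf : StrictMono f) :
    Chain fun i => c (f i) := by
  refine ⟨fun i => chain_le hc.dec (hf (Nat.lt_succ_self i)).le, ?_, ?_⟩
  · intro k m hm N
    obtain ⟨n, hn⟩ := hc.res (f k) m hm N
    exact ⟨n, hn.le (chain_le hc.dec (hf.id_le n))⟩
  · intro k
    obtain ⟨n, hn⟩ := hc.fill (f k)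
    exact ⟨n, (chain_le hc.dec (hf.id_le n)).ext.ne_none hn⟩

/-- Countable unions of small sets are small. -/
theorem small_iUnion {P : Cond} {V : ℕ → Set PF} (h : ∀ n, Small P (V n)) :
    Small P (⋃ n, V n) := by
  choose D hD hc using h
  refine ⟨fun m => D (Nat.unpair m).1 (Nat.unpair m).2, fun m => hD _ _, ?_⟩
  intro c c1 c2 c3 u hu hW
  obtain ⟨n, hn⟩ := Set.mem_iUnion.1 hW
  have hf : StrictMono (fun i => Nat.pair n i) := fun a b hab => Nat.pair_lt_pair_right n hab
  refine hc n (fun i => c (Nat.pair n i)) (fun i => c1 _) (c2.sub hf) ?_ u (hu.sub c2.dec hf) hn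
  intro i
  have := c3 (Nat.pair n i)
  simpa using this

/-- Smallness is decided on a dense set. -/
theorem small_of_dense {P : Cond} {V : Set PF} (H : ∀ Q, Q ≤ P → ∃ R, R ≤ Q ∧ Small R V) :
    Small P V := by
  classical
  let S : Set (Set Cond) := {A | (∀ R ∈ A, R ≤ P ∧ Small R V) ∧
    ∀ R ∈ A, ∀ R' ∈ A, ∀ T, T ≤ R → T ≤ R' → R = R'}
  obtain ⟨A, hA⟩ := zorn_subset S (by
    intro c hcS hc
    refine ⟨⋃₀ c, ⟨?_, ?_⟩, fun s hs => Set.subset_sUnion_of_mem hs⟩
    · rintro R ⟨s, hs, hR⟩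
      exact (hcS hs).1 R hR
    · rintro R ⟨s, hs, hR⟩ R' ⟨s', hs', hR'⟩ T h1 h2
      rcases hc.total hs hs' with h | h
      · exact (hcS hs').2 R (h hR) R' hR' T h1 h2
      · exact (hcS hs).2 R hR R' (h hR') T h1 h2)
  have hA1 := hA.prop.1
  have hA2 := hA.prop.2
  -- every condition below `P` is compatible with an element of `A`
  have hpre : ∀ Q, Q ≤ P → ∃ T, T ≤ Q ∧ ∃ R ∈ A, T ≤ R := by
    intro Q hQ
    obtain ⟨R, hR, hsm⟩ := H Q hQ
    by_contra hno
    push Not at hno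
    have hins : insert R A ∈ S := by
      refine ⟨?_, ?_⟩
      · rintro R' (rfl | hR')
        · exact ⟨hR.trans hQ, hsm⟩
        · exact hA1 R' hR'
      · rintro R1 (rfl | h1) R2 (rfl | h2) T hT1 hT2
        · rfl
        · exact absurd hT2 (hno T (hT1.trans hR) R2 h2)
        · exact absurd hT1 (hno T (hT2.trans hR) R1 h1)
        · exact hA2 R1 h1 R2 h2 T hT1 hT2
    have hsub : insert R A ⊆ A := hA.le_of_ge hins (Set.subset_insert R A)
    exact hno R hR R (hsub (Set.mem_insert R A)) le_rfl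
  have hch : ∀ R : Cond, ∃ D : ℕ → Set Cond, R ∈ A → (∀ i, DenseBelow (D i) R) ∧
    ∀ c : ℕ → Cond, (∀ i, c i ≤ R) → Chain c → (∀ i, c i ∈ D i) → ∀ u, IsLim c u → u ∉ V := by
    intro R
    by_cases hR : R ∈ A
    · obtain ⟨D, hD⟩ := (hA1 R hR).2
      exact ⟨D, fun _ => hD⟩
    · exact ⟨fun _ => ∅, fun h => absurd h hR⟩
  choose D hD using hch
  refine ⟨fun i => {Q | ∃ R ∈ A, Q ≤ R ∧ Q ∈ D R i}, ?_, ?_⟩
  · intro i Q hQ
    obtain ⟨T, hT, R, hR, hTR⟩ := hpre Q hQ
    obtain ⟨T', hT', hmem⟩ := (hD R hR).1 i T hTR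
    exact ⟨T', hT'.trans hT, R, hR, hT'.trans hTR, hmem⟩
  · intro c c1 c2 c3 u hu
    obtain ⟨R, hR, hcR, hcD⟩ := c3 0
    have hall : ∀ i, c i ≤ R ∧ c i ∈ D R i := by
      intro i
      obtain ⟨R', hR', hcR', hcD'⟩ := c3 i
      have hi : c i ≤ R := (chain_le c2.dec (Nat.zero_le i)).trans hcR
      have := hA2 R hR R' hR' (c i) hi hcR'
      subst this
      exact ⟨hi, hcD'⟩
    exact (hD R hR).2 c (fun i => (hall i).1) c2 (fun i => (hall i).2) u hu

/-- Bookkeeping: a sequence of states in which every state has countably many tasks; every task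
is done at some later time. -/
theorem exists_book {α : Type} {T : Type} (tasks : α → Set T)
    (hcnt : ∀ x, (tasks x).Countable) (hne : ∀ x, (tasks x).Nonempty)
    (R : ℕ → T → α → α → Prop) (hR : ∀ n x, ∀ t ∈ tasks x, ∃ y, R n t x y ∧ tasks x ⊆ tasks y)
    (x₀ : α) : ∃ (s : ℕ → α) (t : ℕ → T), s 0 = x₀ ∧ (∀ n, t n ∈ tasks (s n)) ∧
      (∀ n, R n (t n) (s n) (s (n + 1))) ∧ (∀ n, tasks (s n) ⊆ tasks (s (n + 1))) ∧
      ∀ k, ∀ u ∈ tasks (s k), ∀ N, ∃ n, N ≤ n ∧ t n = u := by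
  classical
  have hen : ∀ x, ∃ e : ℕ → T, tasks x = Set.range e := fun x =>
    (hcnt x).exists_eq_range (hne x)
  choose e he using hen
  have hstep : ∀ n x (t : T), ∃ y, t ∈ tasks x → R n t x y ∧ tasks x ⊆ tasks y := by
    intro n x t
    by_cases ht : t ∈ tasks x
    · obtain ⟨y, hy⟩ := hR n x t ht
      exact ⟨y, fun _ => hy⟩
    · exact ⟨x, fun h => absurd h ht⟩
  choose F hF using hstep
  -- states together with the list of all earlier states
  let G : ℕ → (ℕ → α) → (ℕ → α) := fun n h =>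
    Function.update h (n + 1) (F n (h n) (e (h (min (Nat.unpair (Nat.unpair n).1).1 n))
      (Nat.unpair (Nat.unpair n).1).2))
  let H : ℕ → (ℕ → α) := fun n => Nat.rec (fun _ => x₀) (fun n h => G n h) n
  have hH1 : ∀ n, H (n + 1) = G n (H n) := fun n => rfl
  have hstab : ∀ n k, k ≤ n → H (n + 1) k = H n k := by
    intro n k hk
    rw [hH1]
    exact Function.update_of_ne (by omega) _ _
  have hstab' : ∀ n k, k ≤ n → H n k = H k k := by
    intro n k hk
    induction n, hk using Nat.le_induction with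
    | base => rfl
    | succ n hk ih => rw [hstab n k hk, ih]
  let s : ℕ → α := fun n => H n n
  let t : ℕ → T := fun n => e (s (min (Nat.unpair (Nat.unpair n).1).1 n))
    (Nat.unpair (Nat.unpair n).1).2
  have hs : ∀ n, s (n + 1) = F n (s n) (t n) := by
    intro n
    show H (n + 1) (n + 1) = _
    rw [hH1]
    show Function.update _ _ _ _ = _
    rw [Function.update_self, hstab' n _ (min_le_right _ _)]
  have hmain : ∀ n, (∀ k, k ≤ n → tasks (s k) ⊆ tasks (s n)) ∧ t n ∈ tasks (s n) := by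
    intro n
    have aux : (∀ k, k ≤ n → tasks (s k) ⊆ tasks (s n)) → t n ∈ tasks (s n) := by
      intro h
      apply h _ (min_le_right (Nat.unpair (Nat.unpair n).1).1 n)
      rw [he]
      exact ⟨_, rfl⟩
    induction n with
    | zero =>
      have h : ∀ k, k ≤ 0 → tasks (s k) ⊆ tasks (s 0) := by
        intro k hk
        obtain rfl : k = 0 := by omega
        exact subset_rfl
      exact ⟨h, aux h⟩
    | succ n ih =>
      have aux' : (∀ k, k ≤ n → tasks (s k) ⊆ tasks (s n)) → t n ∈ tasks (s n) := by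
        intro h
        apply h _ (min_le_right (Nat.unpair (Nat.unpair n).1).1 n)
        rw [he]
        exact ⟨_, rfl⟩
      obtain ⟨h1, h2⟩ := ih aux'
      have h3 := (hF n (s n) (t n) h2).2
      rw [← hs] at h3
      have h : ∀ k, k ≤ n + 1 → tasks (s k) ⊆ tasks (s (n + 1)) := by
        intro k hk
        rcases Nat.lt_or_ge n k with h | h
        · obtain rfl : k = n + 1 := by omega
          exact subset_rfl
        · exact (h1 k h).trans h3
      exact ⟨h, aux h⟩
  refine ⟨s, t, rfl, fun n => (hmain n).2, fun n => ?_, fun n => (hmain (n + 1)).1 n (Nat.le_succ n),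
    ?_⟩
  · rw [hs]
    exact (hF n (s n) (t n) (hmain n).2).1
  · intro k u hu N
    rw [he] at hu
    obtain ⟨j, hj⟩ := hu
    have hn : k ≤ Nat.pair (Nat.pair k j) N :=
      (Nat.left_le_pair k j).trans (Nat.left_le_pair _ N)
    refine ⟨Nat.pair (Nat.pair k j) N, Nat.right_le_pair _ _, ?_⟩
    show e (s (min _ _)) _ = u
    simp only [Nat.unpair_pair]
    rw [min_eq_left hn, hj]

/-- The set of all functions is not small. -/
theorem not_small_univ (P : Cond) : ¬ Small P Set.univ := by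
  rintro ⟨D, hD, hc⟩
  obtain ⟨Q0, hQ0, hQD⟩ := hD 0 P le_rfl
  obtain ⟨s, t, hs0, ht, hR, hsub, hbook⟩ := exists_book (α := {Q : Cond // Q ≤ P})
    (T := Mon × ℕ) (fun x => {t | t.1 ∈ x.1.M}) (by
      intro x
      have h1 : {t : Mon × ℕ | t.1 ∈ x.1.M} = x.1.M ×ˢ Set.univ := by
        ext t; simp
      rw [h1]
      exact x.1.cnt.prod Set.countable_univ) (by
      intro x
      obtain ⟨m, hm⟩ := x.1.nem
      exact ⟨(m, 0), hm⟩)
    (fun n t x y => y.1 ≤ x.1 ∧ y.1 ∈ D (n + 1) ∧ Res y.1 x.1.A t.1 t.2 ∧ y.1.p x.1.ρ ≠ none)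
    (by
      rintro n ⟨x, hx⟩ t ht
      obtain ⟨c', h1, h2, h3⟩ := reserve x ht t.2
      obtain ⟨y, hy, hyD⟩ := hD (n + 1) c' (h1.trans hx)
      refine ⟨⟨y, (hy.trans h1).trans hx⟩, ⟨hy.trans h1, hyD, h2.le hy, hy.ext.ne_none h3⟩, ?_⟩
      intro t ht
      exact (hy.trans h1).M ht)
    ⟨Q0, hQ0⟩
  have hdec : ∀ i, (s (i + 1)).1 ≤ (s i).1 := fun i => (hR i).1
  have hchain : Chain fun i => (s i).1 := by
    refine ⟨hdec, ?_, ?_⟩
    · intro k m hm N
      obtain ⟨n, hn, htn⟩ := hbook k (m, N) hm k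
      have h1 := (hR n).2.2.1
      rw [htn] at h1
      exact ⟨n + 1, h1.mono (chain_le (c := fun i => (s i).1) hdec hn).A⟩
    · intro k
      exact ⟨k + 1, (hR k).2.2.2⟩
  obtain ⟨u, hu⟩ := exists_lim (c := fun i => (s i).1) hdec
  refine hc (fun i => (s i).1) (fun i => (s i).2) hchain ?_ u hu (Set.mem_univ u)
  intro i
  cases i with
  | zero => rw [hs0]; exact hQD
  | succ n => exact (hR n).2.1

/-- `V` is not small below any extension of `P`. -/
def Big (P : Cond) (V : Set PF) : Prop := ∀ Q, Q ≤ P → ¬ Small Q V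

theorem Big.mono {P Q : Cond} {V W : Set PF} (h : Big P V) (h1 : Q ≤ P) (h2 : V ⊆ W) : Big Q W :=
  fun R hR hS => h R (hR.trans h1) (hS.mono le_rfl h2)

theorem exists_big {P : Cond} {V : Set PF} (h : ¬ Small P V) : ∃ Q, Q ≤ P ∧ Big Q V := by
  by_contra hno
  push Not at hno
  apply h
  apply small_of_dense
  intro Q hQ
  have := hno Q hQ
  unfold Big at this
  push Not at this
  exact this

theorem exists_big_bound (P : Cond) (F : PF → ℕ) : ∃ Q, Q ≤ P ∧ ∃ b, Big Q {y | F y ≤ b} := by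
  have h : ∃ b, ¬ Small P {y | F y ≤ b} := by
    by_contra hno
    push Not at hno
    apply not_small_univ P
    have h1 := small_iUnion hno
    refine h1.mono le_rfl ?_
    intro y _
    exact Set.mem_iUnion.2 ⟨F y, show F y ≤ F y from le_rfl⟩
  obtain ⟨b, hb⟩ := h
  obtain ⟨Q, hQ, hB⟩ := exists_big hb
  exact ⟨Q, hQ, b, hB⟩

/-- Finitely many functions are bounded on sets that are not small. -/
theorem exists_big_finset {ι : Type} (P : Cond) (s : Finset ι) (F : ι → PF → ℕ) :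
    ∃ Q, Q ≤ P ∧ ∃ b, ∀ i ∈ s, Big Q {y | F i y ≤ b} := by
  classical
  induction s using Finset.induction_on with
  | empty => exact ⟨P, le_rfl, 0, fun i hi => absurd hi (Finset.notMem_empty i)⟩
  | insert j s _ ih =>
    obtain ⟨Q, hQ, b, hb⟩ := ih
    obtain ⟨R, hR, b', hb'⟩ := exists_big_bound Q (F j)
    refine ⟨R, hR.trans hQ, max b b', ?_⟩
    intro i hi
    rcases Finset.mem_insert.1 hi with rfl | hi
    · exact hb'.mono le_rfl fun y hy =>
        show F _ y ≤ max b b' from le_trans hy (le_max_right _ _)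
    · exact (hb i hi).mono hR fun y hy =>
        show F i y ≤ max b b' from le_trans hy (le_max_left _ _)

/-- Every set that is not small below `P` contains a limit below `P`. -/
theorem exists_below {P : Cond} {V : Set PF} (h : ¬ Small P V) : ∃ y ∈ V, Below P y := by
  by_contra hno
  push Not at hno
  apply h
  refine ⟨fun _ => Set.univ, fun i Q _ => ⟨Q, le_rfl, Set.mem_univ Q⟩, ?_⟩
  intro c c1 c2 _ u hu hV
  exact hno u hV (below_of_chain c2 hu (c1 0))

end Pool.Agent.Helper12.BX
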