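import Mathlib
import Pool.Agent.Helper12.BX.Ideal

/-!
# The result of the fusion (interface between sections 4 and 5)
-/

set_option autoImplicit false

namespace Pool.Agent.Helper12.BX

open Relation

/-- The union of `Φ` and `y`; the values of `Φ` have priority. -/
def mrg (Φ y : PF) : PF := fun d => (Φ d).or (y d)

theorem mrg_some {Φ y : PF} {d v : ℕ} (h : Φ d = some v) : mrg Φ y d = some v := by
  unfold mrg; rw [h]; rfl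

theorem mrg_none {Φ y : PF} {d : ℕ} (h : Φ d = none) : mrg Φ y d = y d := by
  unfold mrg; rw [h]; rfl

/-- The finite sets `S_i`: all even numbers below `i`, and `0`, `e j`, `r j` for `j < i`. -/
def SS (e r : ℕ → ℕ) (i : ℕ) : Finset ℕ :=
  insert 0 ((Finset.range i).filter (fun d => Even d)) ∪ (Finset.range i).image e ∪
    (Finset.range i).image r

theorem mem_SS {e r : ℕ → ℕ} {i d : ℕ} : d ∈ SS e r i ↔
    d = 0 ∨ (d < i ∧ Even d) ∨ (∃ j, j < i ∧ e j = d) ∨ ∃ j, j < i ∧ r j = d := by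
  unfold SS
  simp only [Finset.mem_union, Finset.mem_insert, Finset.mem_filter, Finset.mem_range,
    Finset.mem_image, or_assoc]

/-- The result of the fusion. In the write-up: `u = u_0`, `q i = p'_i`, `n i` = the index of `a^i`
on the main walk, `e i = e'_i`, `b i = b^i`, `M₀` = the union of the sets of monitors. -/
structure Fus (g : PF → ℕ → ℕ) where
  u : PF
  q : ℕ → Cond
  n : ℕ → ℕ
  e : ℕ → ℕ
  b : ℕ → ℕ
  M₀ : Set Mon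
  u_even : ∀ d, Even d → u d = none
  inc : ∀ k, (P u k).1 < (P u (k + 1)).1
  n_pos : ∀ i, 0 < n i
  Pn : ∀ i, P u (n i) = ((q i).a, dK (b i))
  ua : ∀ i, u (q i).a = some (b i)
  root : ∀ i, ∃ vm, u (P u (n i - 1)).1 = some vm ∧ dT vm = (q i).r
  idx : ∀ i, ∃ m, m ≤ b i ∧ wk (q i).p ((q i).r, 0) m = ((q i).ρ, (q i).τ) ∧
    ∀ k, k < m → (q i).p (wk (q i).p ((q i).r, 0) k).1 ≠ none
  a_mono : StrictMono fun i => (q i).a
  q_ext_u : ∀ i, Ext (q i).p u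
  q_new : ∀ i d v, (q i).p d = none → u d = some v → d ≠ (q i).a → d ∈ (q i).A ∧ (q i).h d ≤ v
  u_ρ : ∀ i, u (q i).ρ = none
  q_ext : ∀ i j, i ≤ j → Ext (q i).p (q j).p
  q_A : ∀ i j, i ≤ j → (q j).A ⊆ (q i).A
  q_h : ∀ i j d, i ≤ j → (q i).h d ≤ (q j).h d
  q_M : ∀ i, (q i).M ⊆ M₀
  M₀_cnt : M₀.Countable
  ρ_ne : ∀ i j, i < j → (q i).ρ ≠ (q j).ρ
  ρ_ge : ∀ i, i ≤ (q i).ρ
  ρ_odd : ∀ i, ¬ Even (q i).ρ
  e_inj : Function.Injective e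
  e_ge : ∀ i, i ≤ e i
  e_odd : ∀ i, ¬ Even (e i)
  e_mem : ∀ i j, i ≤ j → e j ∈ (q i).A
  e_not : ∀ i j, j < i → e j ∉ (q i).A
  e_ne : ∀ i j, e j ≠ (q i).ρ
  u_e : ∀ i, u (e i) = none
  big : ∀ (i : ℕ) (Φ : PF), (∀ d v, Φ d = some v → d ∈ SS e (fun i => (q i).ρ) i ∧
    v ≤ bd ((q i).a + i)) → Big (q i) {y | g (mrg Φ y) (q i).a ≤ b i}
  ok : ∀ m ∈ M₀, Ok m u (Set.range e)
  okμ : Ok ⟨SS e (fun i => (q i).ρ), fun i => bd ((q i).a + i), fun i => (q i).a, a_mono,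
    fun _ => le_rfl⟩ u (Set.range e)

/-- The additional monitor. -/
def Fus.μ {g : PF → ℕ → ℕ} (F : Fus g) : Mon :=
  ⟨SS F.e (fun i => (F.q i).ρ), fun i => bd ((F.q i).a + i), fun i => (F.q i).a, F.a_mono,
    fun _ => le_rfl⟩

/-- The order of the conditions of different stages. -/
structure Le2 (c' c : Cond) : Prop where
  ext : Ext c.p c'.p
  new : ∀ d v, c.p d = none → c'.p d = some v → (d ∈ c.A ∨ d = c.ρ ∨ d = c.a) ∧ c.h d ≤ v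
  h : ∀ d, c.h d ≤ c'.h d
  A : c'.A ⊆ c.A
  M : c.M ⊆ c'.M
  ρ : c'.ρ ∈ c.A ∨ c'.ρ = c.ρ
  a : c'.a ∈ c.A ∨ c'.a = c.a

/-- The condition `c` at the beginning of stage `i`; `S = S_i`, `n` = the index of the end `c.a` on
the main walk. -/
structure Stage (i : ℕ) (S : Finset ℕ) (c : Cond) (n : ℕ) : Prop where
  p_odd : ∀ d v, c.p d = some v → ¬ Even d
  A_odd : ∀ d ∈ c.A, ¬ Even d ∧ i ≤ d
  ρ_odd : ¬ Even c.ρ ∧ i ≤ c.ρ
  a_odd : ¬ Even c.a ∧ i ≤ c.a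
  pos : 0 < n
  inc : ∀ k, k < n → (P c.p k).1 < (P c.p (k + 1)).1
  Pn : (P c.p n).1 = c.a
  st : i ≤ (P c.p n).2
  root : ∃ vm, c.p (P c.p (n - 1)).1 = some vm ∧ dT vm = c.r
  S : ∀ d ∈ S, c.p d = none ∧ d ∉ c.A ∧ d ≠ c.a ∧ d ≠ c.ρ

/-- The result `(Q, b, e, c')` of stage `i` that begins with the condition `c` and treats the
monitor `ν`. -/
structure StepOK (g : PF → ℕ → ℕ) (i : ℕ) (S : Finset ℕ) (c : Cond) (n : ℕ) (ν : Mon)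
    (Q : Cond) (b e : ℕ) (c' : Cond) : Prop where
  Qc : Q ≤ c
  key : P c.p n = (c.a, dK b)
  idx : ∃ m, m ≤ b ∧ wk Q.p (Q.r, 0) m = (Q.ρ, Q.τ) ∧
    ∀ k, k < m → Q.p (wk Q.p (Q.r, 0) k).1 ≠ none
  big : ∀ Φ : PF, (∀ d v, Φ d = some v → d ∈ S ∧ v ≤ bd (c.a + i)) →
    Big Q {y | g (mrg Φ y) c.a ≤ b}
  ext : Ext Q.p c'.p
  pa : c'.p c.a = some b
  ha : Q.h c.a ≤ b
  new : ∀ d v, Q.p d = none → c'.p d = some v → d ≠ c.a → d ∈ Q.A ∧ Q.h d ≤ v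
  h : c'.h = Q.h
  M : c'.M = Q.M
  A : c'.A ⊆ Q.A
  mem : ∀ d, d = e ∨ d = c'.a ∨ d = c'.ρ → d ∈ Q.A
  eA : e ∉ c'.A ∧ e ≠ c'.a ∧ e ≠ c'.ρ ∧ c'.p e = none
  Dμ : TransGen (Ds i c'.p) c.a e
  Dν : ∃ j, i ≤ j ∧ (∀ d ∈ ν.S j, ∀ v, c'.p d = some v → v ≤ ν.b j) ∧
    (∀ d ∈ ν.S j, d ∉ c'.A ∧ d ≠ c'.a ∧ d ≠ c'.ρ) ∧ e ∉ ν.S j ∧ TransGen (Ds i c'.p) (ν.f j) e

/-- Statement of the step of the fusion (to be proved in `FusStep`). -/
def FusStep (g : PF → ℕ → ℕ) : Prop :=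
  ∀ (i : ℕ) (S : Finset ℕ) (c : Cond) (n : ℕ) (ν : Mon), Stage i S c n → ν ∈ c.M →
    ∃ (Q : Cond) (b e : ℕ) (c' : Cond) (n' : ℕ), StepOK g i S c n ν Q b e c' ∧ n < n' ∧
      Stage (i + 1) (insert e (insert Q.ρ (if Even i then insert i S else S))) c' n'

/-- A gap that has been filled (in the write-up: `i = i_j`, `1 ≤ j ≤ l`, `B = B_l`; the function
`w` is `u_j`). -/
structure Gp {g : PF → ℕ → ℕ} (F : Fus g) (B : PF) (i : ℕ) : Prop where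
  ba : B (F.q i).a = some (F.b i)
  ex : ∃ w : PF, Ext w B ∧ w (F.q i).a = none ∧ RegInf w (F.q i).a (F.q i).r
  ρ : ∃ v, B (F.q i).ρ = some v ∧ dK v = (F.q i).τ ∧ dT v = dC (F.b i)

end Pool.Agent.Helper12.BX
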