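import Mathlib
import Pool.Agent.Helper12.BX.Fus

/-!
# States of the play (interface inside section 5)
-/

set_option autoImplicit false

namespace Pool.Agent.Helper12.BX

open Relation

/-- A state of the play. In the write-up: `u = u_l`, `n` = the number of steps of its main walk
(`0` for `l = 0`), `B = B_l`, `A = A^l`, `I = {i_1, ..., i_l}`. -/
structure PSt {g : PF → ℕ → ℕ} (F : Fus g) where
  u : PF
  n : ℕ
  B : PF
  A : Set ℕ
  I : Finset ℕ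
  ff : FF u n
  lt : ∀ j ∈ I, (F.q j).a ≤ lev u n
  none : u (lev u n) = none
  val : ∃ b, B (lev u n) = some b ∧ g u (lev u n) ≤ b
  eqB : ∀ d, d ≠ lev u n → B d = u d
  ext : Ext F.u B
  B0 : B 0 ≠ Option.none
  even : ∃ K, ∀ d, K ≤ d → Even d → B d = Option.none
  new : ∀ d v, F.u d = Option.none → B d = some v →
    Even d ∨ (∃ j ∈ I, d = (F.q j).ρ) ∨ ∃ j, d = F.e j ∧ (F.q j).h d ≤ v
  mark : ∀ e, Mk B e ↔ ∃ j ∈ I, e = (F.q j).a
  gp : ∀ j ∈ I, Gp F B j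
  gap : ∀ t, IsGap u n t ↔ t = 0 ∨ ∃ j ∈ I, t = (F.q j).a
  A_e : A ⊆ Set.range F.e
  A_B : ∀ d ∈ A, B d = Option.none
  ok : ∀ m ∈ F.M₀, Ok m B A
  okμ : Ok F.μ B A

/-- Statement of the first state (to be proved in `PlayStep`). -/
def PlayZero {g : PF → ℕ → ℕ} (F : Fus g) : Prop := ∃ x : PSt F, x.u = F.u ∧ x.n = 0

/-- Statement of the step of the play (to be proved in `PlayStep`). -/
def PlayStep {g : PF → ℕ → ℕ} (F : Fus g) : Prop :=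
  ∀ (x : PSt F) (κ : ℕ) (H : ℕ → ℕ), ∃ x' : PSt F, Ext x.B x'.B ∧
    (∀ d v, x.B d = Option.none → x'.B d = some v → κ ≤ d ∧ H d ≤ v) ∧
    κ ≤ lev x'.u x'.n ∧ ∀ t, t < κ → xv x'.u x'.n t = xv x.u x.n t

/-- (5.2), to be proved in `PlayF`: `y = u_{l+1}`, `B = B_l`. -/
def PlayF {g : PF → ℕ → ℕ} (F : Fus g) : Prop :=
  ∀ (B y : PF) (I : Finset ℕ) (i : ℕ), (∀ j ∈ I, j < i ∧ Gp F B j) → Ext F.u B →
    (∀ d v, d ≠ (F.q i).a → B d = some v → y d = some v) → y (F.q i).a = none → B 0 ≠ none →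
    (∀ e, Mk y e ↔ e = (F.q i).a ∨ ∃ j ∈ I, e = (F.q j).a) → RegInf y (F.q i).a (F.q i).r →
    IsF y (F.n i) ∧ (∀ k, k ≤ F.n i → P y k = P F.u k) ∧
      ∀ t, IsGap y (F.n i) t ↔ t = 0 ∨ t = (F.q i).a ∨ ∃ j ∈ I, t = (F.q j).a

/-- To be proved in `PlayF`. -/
def XvCongr : Prop := ∀ (u y : PF) (n n' κ : ℕ), (∀ t, t < κ → (IsGap u n t ↔ IsGap y n' t)) →
    (∀ t, t < κ → u t = y t ∨ (IsGap u n t ∧ ∀ t', t < t' → t' < κ → ¬ IsGap u n t')) →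
    ∀ t, t < κ → xv y n' t = xv u n t

/-- To be proved in `PlayEnd`. -/
def PlayEnd : Prop := (∀ g : PF → ℕ → ℕ, Nonempty (Fus g)) →
  (∀ (g : PF → ℕ → ℕ) (F : Fus g), PlayZero F) → (∀ (g : PF → ℕ → ℕ) (F : Fus g), PlayStep F) → Core

/-- To be proved in `FusEnd`. -/
def FusEnd : Prop := ∀ g : PF → ℕ → ℕ, FusStep g → Nonempty (Fus g)

end Pool.Agent.Helper12.BX
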