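import Mathlib
import Pool.Agent.Helper12.BX.Play0

/-!
# The core from the steps of the play
-/

set_option autoImplicit false

namespace Pool.Agent.Helper12.BX

theorem exists_union {f : ℕ → PF} (hf : ∀ i j, i ≤ j → Ext (f i) (f j)) :
    ∃ w : PF, (∀ i, Ext (f i) w) ∧ ∀ d v, w d = some v → ∃ i, f i d = some v := by
  classical
  refine ⟨fun d => if h : ∃ i, f i d ≠ none then f (Nat.find h) d else none, ?_, ?_⟩
  · intro i d v hv
    have h : ∃ i, f i d ≠ none := ⟨i, by rw [hv]; simp⟩
    have h1 : f (Nat.find h) d ≠ none := Nat.find_spec h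
    obtain ⟨w, hw⟩ := Option.ne_none_iff_exists'.1 h1
    have h2 : Nat.find h ≤ i := Nat.find_min' h (by rw [hv]; simp)
    have h3 := hf _ _ h2 d w hw
    simp only [dif_pos h]
    rw [hw, ← h3, hv]
  · intro d v hv
    by_cases h : ∃ i, f i d ≠ none
    · simp only [dif_pos h] at hv
      exact ⟨_, hv⟩
    · simp only [dif_neg h] at hv
      cases hv

theorem core_of {g : PF → ℕ → ℕ} (F : Fus g) (h0 : PlayZero F) (hS : PlayStep F) (k : PF → ℕ) :
    ∃ (u : ℕ → PF) (n x : ℕ → ℕ) (w : PF),
      ∀ l, FF (u l) (n l) ∧ (∀ t, t < k (u l) → x t = xv (u l) (n l) t) ∧ Near (u l) (g (u l)) w ∧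
        l ≤ lev (u l) (n l) := by
  obtain ⟨x0, _, _⟩ := h0
  choose f f1 f2 f3 f4 using hS
  let κ1 : PSt F × ℕ × (ℕ → ℕ) → ℕ := fun s => max s.2.1 (k s.1.u) + 1
  let H1 : PSt F × ℕ × (ℕ → ℕ) → ℕ → ℕ := fun s d => max (s.2.2 d) (g s.1.u d)
  let s : ℕ → PSt F × ℕ × (ℕ → ℕ) := fun l =>
    Nat.rec (x0, 0, fun _ => 0) (fun _ s => (f s.1 (κ1 s) (H1 s), κ1 s, H1 s)) l
  let X : ℕ → PSt F := fun l => (s l).1
  let κ : ℕ → ℕ := fun l => (s l).2.1
  let H : ℕ → ℕ → ℕ := fun l => (s l).2.2
  have hX : ∀ l, X (l + 1) = f (X l) (κ (l + 1)) (H (l + 1)) := fun l => rfl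
  have hκ : ∀ l, κ (l + 1) = max (κ l) (k (X l).u) + 1 := fun l => rfl
  have hH : ∀ l d, H (l + 1) d = max (H l d) (g (X l).u d) := fun l d => rfl
  have κmono : ∀ l m, l ≤ m → κ l ≤ κ m := by
    intro l m h
    induction m, h using Nat.le_induction with
    | base => exact le_rfl
    | succ m _ ih =>
      rw [hκ m]
      exact ih.trans ((le_max_left _ _).trans (Nat.le_succ _))
  have Hmono : ∀ l m d, l ≤ m → H l d ≤ H m d := by
    intro l m d h
    induction m, h using Nat.le_induction with
    | base => exact le_rfl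
    | succ m _ ih =>
      rw [hH m]
      exact ih.trans (le_max_left _ _)
  have κge : ∀ l, l ≤ κ l := by
    intro l
    induction l with
    | zero => exact Nat.zero_le _
    | succ l ih =>
      rw [hκ l]
      exact Nat.succ_le_succ (ih.trans (le_max_left _ _))
  have kle : ∀ l, k (X l).u ≤ κ (l + 1) := by
    intro l
    rw [hκ l]
    exact (le_max_right _ _).trans (Nat.le_succ _)
  have gle : ∀ l d, g (X l).u d ≤ H (l + 1) d := by
    intro l d
    rw [hH l]
    exact le_max_right _ _
  have extB : ∀ l m, l ≤ m → Ext (X l).B (X m).B := by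
    intro l m h
    induction m, h using Nat.le_induction with
    | base => exact Ext.refl _
    | succ m _ ih =>
      refine ih.trans ?_
      rw [hX m]
      exact f1 _ _ _
  have newB : ∀ l m, l ≤ m → ∀ d v, (X l).B d = none → (X m).B d = some v →
      g (X l).u d ≤ v := by
    intro l m h
    induction m, h using Nat.le_induction with
    | base =>
      intro d v h1 h2
      rw [h1] at h2; cases h2
    | succ m hm ih =>
      intro d v h1 h2
      rcases hd : (X m).B d with _ | w
      · rw [hX m] at h2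
        have h3 := (f2 _ _ _ d v hd h2).2
        exact ((gle l d).trans (Hmono _ _ d (Nat.succ_le_succ hm))).trans h3
      · have h3 := extB m (m + 1) (Nat.le_succ m) d w hd
        rw [h3] at h2
        obtain rfl : w = v := by simpa using h2
        exact ih d w h1 hd
  have xvA : ∀ l m, l ≤ m → ∀ t, t < κ (l + 1) →
      xv (X m).u (X m).n t = xv (X l).u (X l).n t := by
    intro l m h
    induction m, h using Nat.le_induction with
    | base => intro t _; rfl
    | succ m hm ih =>
      intro t ht
      rw [← ih t ht]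
      have h1 := f4 (X m) (κ (m + 1)) (H (m + 1)) t
        (lt_of_lt_of_le ht (κmono _ _ (Nat.succ_le_succ hm)))
      rw [← hX m] at h1
      exact h1
  obtain ⟨w, hw1, hw2⟩ := exists_union (f := fun l => (X l).B) extB
  refine ⟨fun l => (X l).u, fun l => (X l).n, fun t => xv (X t).u (X t).n t, w, fun l => ?_⟩
  refine ⟨(X l).ff, ?_, ⟨?_, ?_⟩, ?_⟩
  · intro t ht
    rcases le_total t l with h | h
    · exact (xvA t l h t (lt_of_lt_of_le (Nat.lt_succ_self t) (κge _))).symm
    · exact xvA l t h t (lt_of_lt_of_le ht (kle l))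
  · intro d v hv
    have hv' : (X l).u d = some v := hv
    apply hw1 l
    rw [(X l).eqB d ?_]
    · exact hv'
    · rintro rfl
      rw [(X l).none] at hv'; cases hv'
  · intro d v hd hv
    by_cases h : d = lev (X l).u (X l).n
    · obtain ⟨b, h1, h2⟩ := (X l).val
      rw [← h] at h1 h2
      have h3 := hw1 l d b h1
      rw [h3] at hv
      obtain rfl : b = v := by simpa using hv
      exact h2
    · obtain ⟨m, hm⟩ := hw2 d v hv
      have h1 : (X l).B d = none := by rw [(X l).eqB d h]; exact hd
      rcases le_total l m with hlm | hlm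
      · exact newB l m hlm d v h1 hm
      · have := extB m l hlm d v hm
        rw [h1] at this; cases this
  · cases l with
    | zero => exact Nat.zero_le _
    | succ l =>
      have h1 := f3 (X l) (κ (l + 1)) (H (l + 1))
      rw [← hX l] at h1
      exact (κge _).trans h1

theorem playEnd : PlayEnd := by
  intro hF h0 hS k g
  obtain ⟨F⟩ := hF g
  exact core_of F (h0 g F) (hS g F) k

end Pool.Agent.Helper12.BX
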