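import Mathlib
import Pool.Agent.Helper12.BX.PlayEnd
import Pool.Agent.Helper52.BX.FusEnd
import Pool.Agent.Helper78.BX.FusStep
import Pool.Agent.Helper86.BX.PlayStep
import Pool.Agent.Helper9.BX.PlayF

/-!
# The combinatorial core
-/

set_option autoImplicit false

namespace Pool.Agent.Helper12.BX

theorem core : Core :=
  playEnd (fun g => fusEnd g (fusStep g)) (fun _ F => playZero F)
    fun _ F => playStep F (playF F) xvCongr

end Pool.Agent.Helper12.BX
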